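import Pool.Agent.V11246.NDefs
import Pool.Agent.V11246.Exist
import Pool.Agent.V11246.Nar

/-!
# A narrow forcing that is not uniformly narrow

The definitions are in `Pool.Agent.V11246.NDefs` and the files it names.
-/

namespace Pool.Agent.Results.MP_0f0156_lc.NarrowNotUniform

open FirstOrder FirstOrder.Language
open Pool.Agent.Helper672.Plain (LSet)
open Pool.Agent.H310Cards (IsOmega)
open Pool.Agent.H635Amen (ZF)
open Pool.Agent.V11246

/-- There is a model of ZF with a forcing `P` that is narrow and not uniformly narrow for the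
first infinite ordinal `t` of the model. -/
theorem _root_.Pool.Agent.Results.MP_0f0156_lc.NarrowNotUniform.result :
    ∃ (N : Type 2) (_ : LSet.Structure N), ZF N ∧ ∃ t P r : N,
      IsOmega t ∧ IsForcing r P ∧ Narrow r P t ∧ ¬ UnifNarrow r P t := by
  obtain ⟨N, hL, hZ, k, hk⟩ := Pool.Agent.Helper672.ZFA.V246.exists_omK_zs
  obtain ⟨t, P, r, h1, h2, h3, h4⟩ := hk.final₂
  exact ⟨N, hL, hZ, t, P, r, h1, h2, h3, h4⟩

end Pool.Agent.Results.MP_0f0156_lc.NarrowNotUniform
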